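import Pool.Agent.Helper97.Fuchs.Final

/-!
# Hitting measures of Fuchsian groups converging to a lattice

The definitions used below are in `Pool/Agent/Helper97/Fuchs/Defs2.lean` (the Cayley conjugate of
a real matrix, its Möbius map `bmap` of the boundary circle and the derivative `bjac` of this map)
and `Pool/Agent/Helper97/Fuchs/Defs3.lean` (Fuchsian groups, covolume, Chabauty and Hausdorff
convergence, critical exponent, limit set, conformal and Patterson–Sullivan measures, random walk
and hitting measure).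
-/

namespace Pool.Agent.Results.MP_d2b80e_pr.HittingSingular

open MeasureTheory Filter Topology UpperHalfPlane Pool.Agent.Helper97.Fuchs
open scoped MatrixGroups

/-- **Q1 of MP_d2b80e_pr is true.** Let the Fuchsian groups `Γ n`, generated by the finite sets
`S n`, converge geometrically to the lattice `Γ'`, generated by the finite set `S'`, let
`S n → S'` in the Hausdorff sense, let `μ n` and `μ'` be probability measures with supports `S n`
and `S'` such that `μ n (s n) → μ' s'` whenever `s n ∈ S n` and `s n → s' ∈ S'`, and let `Γ n` have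
infinite covolume for all large `n`. Then for all large `n` the random walk with step law `μ n`
has a hitting measure, and the hitting measure is singular to every Patterson–Sullivan measure
of `Γ n`. -/
theorem result (Γ : ℕ → Subgroup PSL(2, ℝ)) (Γ' : Subgroup PSL(2, ℝ))
    (S : ℕ → Finset PSL(2, ℝ)) (S' : Finset PSL(2, ℝ))
    (μ : ℕ → PMF PSL(2, ℝ)) (μ' : PMF PSL(2, ℝ))
    (hΓ : ∀ n, Fuchsian (Γ n)) (hΓ' : Fuchsian Γ') (hlat : FiniteCovolume Γ')
    (hconv : ChabautyTendsto Γ Γ')
    (hS : ∀ n, Subgroup.closure (S n : Set PSL(2, ℝ)) = Γ n)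
    (hS' : Subgroup.closure (S' : Set PSL(2, ℝ)) = Γ')
    (hSconv : HausdorffTendsto S S')
    (hμ : ∀ n, (μ n).support = (S n : Set PSL(2, ℝ)))
    (hμ' : μ'.support = (S' : Set PSL(2, ℝ)))
    (hμconv : ∀ s : ℕ → PSL(2, ℝ), (∀ n, s n ∈ S n) → ∀ s' ∈ S', Tendsto s atTop (𝓝 s') →
      Tendsto (fun n => μ n (s n)) atTop (𝓝 (μ' s')))
    (hinf : ∀ᶠ n in atTop, ¬ FiniteCovolume (Γ n)) (o : ℍ) :
    ∀ᶠ n in atTop, (∃ ν, IsHittingMeasure o (μ n) ν) ∧
      ∀ ν κ, IsHittingMeasure o (μ n) ν → IsPattersonSullivan (Γ n) κ → ν ⟂ₘ κ := by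
  have _ := hΓ
  filter_upwards [final Γ Γ' S S' μ μ' hΓ' hlat hconv hS hS' hSconv hμ hμ' hμconv hinf o]
    with n hn
  refine ⟨hn.1, fun ν κ hν hκ => ?_⟩
  exact hn.2 ν κ _ hν hκ.1 le_rfl hκ.2.2.1

end Pool.Agent.Results.MP_d2b80e_pr.HittingSingular
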